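import Pool.Agent.H97.BilDefs

set_option autoImplicit false

namespace Pool.Agent.Results.MP_67b65f_an.Ball

open Pool.Agent.H97.Bil Real Filter Topology

noncomputable def e (θ : ℝ) : ℂ := Complex.exp (Complex.I * θ)

theorem e_add (a b : ℝ) : e (a + b) = e a * e b := by simp [e, mul_add, Complex.exp_add]

theorem e_norm (a : ℝ) : ‖e a‖ = 1 := Complex.norm_exp_I_mul_ofReal a

theorem e_eq (a : ℝ) : e a = cos a + sin a * Complex.I := by
  rw [e, mul_comm, Complex.exp_mul_I]; simp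

theorem e_sub (a b : ℝ) : ‖e a - e b‖ ≤ |a - b| := by
  have : e a - e b = e b * (e (a - b) - 1) := by rw [mul_sub, ← e_add]; simp
  rw [this, norm_mul, e_norm, one_mul]
  exact Real.norm_exp_I_mul_ofReal_sub_one_le

theorem e_zero : e 0 = 1 := by simp [e]

theorem e_pow (a : ℝ) (k : ℕ) : e a ^ k = e (k * a) := by
  simp only [e, ← Complex.exp_nat_mul]; push_cast; ring_nf

theorem e_pi : e π = -1 := by simp [e_eq]

theorem e_int (m : ℤ) : e (m * (2 * π)) = 1 := by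
  rw [e_eq, cos_int_mul_two_pi, show (m : ℝ) * (2 * π) = ((2 * m : ℤ) : ℝ) * π by push_cast; ring,
    sin_int_mul_pi]
  simp

theorem e_cos (a : ℝ) : e a + e (-a) = 2 * cos a := by
  simp only [e_eq, cos_neg, sin_neg]; push_cast; ring

theorem nsq (s a : ℝ) : ‖1 - s * e a‖ ^ 2 = 1 - 2 * s * cos a + s ^ 2 := by
  rw [Complex.sq_norm, Complex.normSq_apply, e_eq]
  simp only [Complex.sub_re, Complex.one_re, Complex.mul_re, Complex.ofReal_re, Complex.add_re,
    Complex.I_re, Complex.ofReal_im, Complex.I_im, Complex.add_im, Complex.mul_im, Complex.sub_im,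
    Complex.one_im]
  nlinarith [sin_sq_add_cos_sq a]

theorem refl {u : ℂ} (hu : ‖u‖ = 1) (β : ℝ) :
    u * e (-β) - (2 * inner ℝ (u * e (-β)) u) • u = -u * e β := by
  have h : inner ℝ (u * e (-β)) u = cos β := by
    rw [Complex.inner, map_mul, ← mul_assoc, Complex.mul_conj, Complex.normSq_eq_norm_sq, hu, e_eq]
    simp [Complex.cos_ofReal_re, Complex.sin_ofReal_im]
  rw [h, Complex.real_smul]
  push_cast
  have := e_cos β
  push_cast at this
  linear_combination u * this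

theorem hit {β s : ℝ} (hc : 0 < cos β) (h0 : 0 ≤ s) (h1 : s ≤ 2 * cos β) (k : ℕ) (Q u : ℂ) (τ : ℝ)
    (hu : ‖u‖ = 1) (hτ : 0 < τ) (hQ : Q + τ • (u * e (-β)) = u) :
    Traj Q (u * e (-β)) (τ + (2 * k * cos β + s)) (u * e (k * (π + 2 * β)) * (1 - s * e β)) := by
  induction k generalizing Q u τ with
  | zero =>
    refine Traj.bounce _ _ _ _ _ hτ (by rw [hQ, hu]) ?_
    rw [hQ, refl hu]
    have e1 : u + s • (-u * e β) = u * (1 - s * e β) := by rw [Complex.real_smul]; ring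
    have := Traj.free u (-u * e β) s h0 (by
      rw [e1, norm_mul, hu, one_mul, ← sq_le_one_iff₀ (norm_nonneg _), nsq]; nlinarith)
    rw [e1] at this
    simpa [e_zero] using this
  | succ k ih =>
    refine Traj.bounce _ _ _ _ _ hτ (by rw [hQ, hu]) ?_
    rw [hQ, refl hu]
    have e1 : u * e (π + 2 * β) * e (-β) = -u * e β := by
      rw [mul_assoc, ← e_add, show π + 2 * β + -β = π + β by ring, e_add, e_pi]; ring
    have := ih u (u * e (π + 2 * β)) (2 * cos β) (by rw [norm_mul, hu, e_norm, one_mul])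
      (by linarith) (by
        rw [e1, e_add, e_pi, two_mul β, e_add, Complex.real_smul]
        have h2 := e_cos β
        have h3 : e β * e (-β) = 1 := by rw [← e_add, add_neg_cancel, e_zero]
        push_cast at h2 ⊢
        linear_combination u * e β * h2 - u * h3)
    rw [e1, mul_assoc u, ← e_add] at this
    convert this using 1
    · push_cast; ring
    · congr 3; push_cast; ring

theorem aim {c d : ℂ} (hc : ‖c‖ = 1) (hd : ‖d‖ = 1) {δ : ℝ} (hδ : 0 < δ) :
    ∃ j : ℕ, (j : ℝ) ≤ 2 * π / δ ∧ ‖c * e (j * δ) - d‖ ≤ δ := by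
  have c0 : c ≠ 0 := by rintro rfl; simp at hc
  obtain ⟨ψ, h0, h1, h2⟩ : ∃ ψ, 0 ≤ ψ ∧ ψ ≤ 2 * π ∧ d = c * e ψ := by
    refine ⟨Complex.arg (-(d / c)) + π, by linarith [Complex.neg_pi_lt_arg (-(d / c))],
      by linarith [Complex.arg_le_pi (-(d / c))], ?_⟩
    have := Complex.norm_mul_exp_arg_mul_I (-(d / c))
    rw [norm_neg, norm_div, hc, hd, mul_comm _ Complex.I] at this
    rw [e_add, e_pi, e]
    simp only [div_one, Complex.ofReal_one, one_mul] at this
    rw [this]; field_simp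
  refine ⟨⌊ψ / δ⌋₊, (Nat.floor_le (by positivity)).trans (by gcongr), ?_⟩
  rw [h2, ← mul_sub, norm_mul, hc, one_mul]
  refine (e_sub _ _).trans ?_
  have a1 := Nat.floor_le (show 0 ≤ ψ / δ by positivity)
  have a2 := Nat.lt_floor_add_one (ψ / δ)
  rw [le_div_iff₀ hδ] at a1
  rw [div_lt_iff₀ hδ] at a2
  rw [abs_le]; constructor <;> linarith

theorem ex_beta {δ η : ℝ} (h0 : 0 < η) (h1 : η ≤ 1) : ∃ β, 0 < β ∧ β ≤ η ∧
    ∃ m : ℤ, π + 2 * β + 2 * cos β / sin β = m * (2 * π) + δ := by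
  let g : ℝ → ℝ := fun β => π + 2 * β + 2 * cos β / sin β
  obtain ⟨m, hm⟩ := exists_int_ge ((g η - δ) / (2 * π))
  rw [div_le_iff₀ (by positivity)] at hm
  set y := m * (2 * π) + δ
  set b := min η (1 / (|y| + 1))
  have b0 : 0 < b := by positivity
  have b1 : b ≤ η := min_le_left _ _
  have hs : ∀ β, 0 < β → β ≤ η → 0 < sin β := fun β h2 h3 =>
    sin_pos_of_pos_of_lt_pi h2 (by linarith [pi_gt_three])
  have hb : y ≤ g b := by
    have c1 : 1 / 2 ≤ cos b := by nlinarith [one_sub_sq_div_two_le_cos (x := b)]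
    have c2 : b * (|y| + 1) ≤ 1 := (le_div_iff₀ (by positivity)).1 (min_le_right _ _)
    have c3 : |y| ≤ 2 * cos b / sin b := by
      rw [le_div_iff₀ (hs b b0 b1)]
      nlinarith [sin_le b0.le, abs_nonneg y]
    simp only [g]
    linarith [le_abs_self y, pi_pos]
  obtain ⟨β, hβ, h⟩ := intermediate_value_Icc' b1 (f := g) (by
    refine ContinuousOn.add (by fun_prop) (ContinuousOn.div (by fun_prop) (by fun_prop) ?_)
    exact fun β hβ => (hs β (b0.trans_le hβ.1) hβ.2).ne') (⟨by linarith, hb⟩ : y ∈ Set.Icc (g η) (g b))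
  exact ⟨β, b0.trans_le hβ.1, hβ.2, m, h⟩

noncomputable def τ (ρ β : ℝ) : ℝ := cos β + √(ρ ^ 2 - sin β ^ 2)

theorem den {ρ β : ℝ} (hρ : 0 < ρ) (h : |β| ≤ ρ) : ‖1 - τ ρ β * e (-β)‖ = ρ := by
  rw [← sq_eq_sq₀ (norm_nonneg _) hρ.le, nsq, cos_neg, τ]
  have := sq_sqrt (show 0 ≤ ρ ^ 2 - sin β ^ 2 by
    nlinarith [sin_sq_le_sq (x := β), sq_abs β, abs_nonneg β])
  nlinarith [sin_sq_add_cos_sq β]

theorem taylor (β : ℝ) {h : ℝ} (h0 : 0 < h) (h1 : h ≤ 1) :
    |cos (β + h) - cos β + h * sin β| ≤ h ^ 2 := by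
  have a1 := one_sub_sq_div_two_le_cos (x := h)
  have a2 := cos_le_one h
  have a3 := sin_le h0.le
  have a4 := sin_gt_sub_cube h0
  have a5 : h ^ 3 ≤ h ^ 2 := pow_le_pow_of_le_one h0.le h1 (by norm_num)
  rw [cos_add, abs_le]
  constructor <;> nlinarith [cos_le_one β, neg_one_le_cos β, sin_le_one β, neg_one_le_sin β]

theorem plane {ρ ε : ℝ} (hρ : 0 < ρ) (hρ1 : ρ < 1) (hε : 0 < ε) : ∃ T, ∀ t, T ≤ t → ∀ x : ℂ,
    ‖x‖ < 1 → ∃ y ∈ front (ρ : ℂ) t, dist y x < ε := by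
  set δ := min (ε / 8) (ρ / 8) with hδ
  have δ0 : 0 < δ := by positivity
  have δ1 : δ ≤ ε / 8 := min_le_left _ _
  have δ2 : δ ≤ ρ / 8 := min_le_right _ _
  obtain ⟨b, b0, b1, m, hm⟩ := ex_beta (δ := δ) (η := δ / 2) (by positivity) (by linarith)
  have s0 : 0 < sin b := sin_pos_of_pos_of_lt_pi b0 (by linarith [pi_gt_three])
  let U : ℝ → ℂ := fun β => ρ / (1 - τ ρ β * e (-β))
  have hU : ∀ β, |β| ≤ ρ → ‖U β‖ = 1 := fun β h => by
    simp only [U]; rw [norm_div, den hρ h]; simp [abs_of_pos hρ, hρ.ne']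
  have hne : ∀ β, |β| ≤ ρ → 1 - τ ρ β * e (-β) ≠ 0 := fun β h => by
    rw [← norm_pos_iff, den hρ h]; exact hρ
  have hb : |b| ≤ ρ := by rw [abs_of_pos b0]; linarith
  have cτ : Continuous (τ ρ) := by unfold τ; fun_prop
  have cU : ContinuousAt U b :=
    ContinuousAt.div continuousAt_const (by unfold e; fun_prop) (hne b hb)
  obtain ⟨η1, η10, h1⟩ := Metric.continuousAt_iff.1 (cτ.continuousAt (x := b)) (δ / 2)
    (by positivity)
  obtain ⟨η2, η20, h2⟩ := Metric.continuousAt_iff.1 cU δ δ0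
  set η := min (min η1 η2) (δ / 2)
  have η0 : 0 < η := by positivity
  set M := (2 * π / δ + 1) / sin b with hM
  have M0 : 0 < M := by positivity
  refine ⟨2 * (M / η + 4 * M ^ 2 / δ) + 8, fun t ht x hx => ?_⟩
  have cs : ∀ β, 0 < β → β ≤ δ → 3 / 4 ≤ cos β := fun β h3 h4 => by
    nlinarith [one_sub_sq_div_two_le_cos (x := β)]
  have c0 := cs b b0 (by linarith)
  have τ2 : τ ρ b ≤ 2 := by
    have : √(ρ ^ 2 - sin b ^ 2) ≤ 1 := sqrt_le_one.2 (by nlinarith [sq_nonneg (sin b)])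
    unfold τ; linarith [cos_le_one b]
  set σ := 1 - ‖x‖ + δ with hσ
  have x0 := norm_nonneg x
  have p1 : 0 < M / η := by positivity
  have p2 : 0 < 4 * M ^ 2 / δ := by positivity
  set k0 := ⌊(t - τ ρ b - σ) / (2 * cos b)⌋₊
  have k1 := Nat.floor_le (show 0 ≤ (t - τ ρ b - σ) / (2 * cos b) from
    div_nonneg (by linarith) (by linarith))
  have k2 := Nat.lt_floor_add_one ((t - τ ρ b - σ) / (2 * cos b))
  rw [le_div_iff₀ (by linarith)] at k1
  rw [div_lt_iff₀ (by linarith)] at k2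
  set r := t - τ ρ b - σ - k0 * (2 * cos b) with hr
  obtain ⟨j, j1, j2⟩ := aim (c := U b * e (k0 * (π + 2 * b) - r / sin b + δ)) (d := e x.arg)
    (by rw [norm_mul, hU b hb, e_norm, one_mul]) (e_norm _) δ0
  set k : ℕ := k0 + (j + 1) with hk
  have j0 : (0 : ℝ) ≤ j := Nat.cast_nonneg j
  have k00 : (0 : ℝ) ≤ k0 := Nat.cast_nonneg k0
  have kk : (k : ℝ) = k0 + (j + 1) := by rw [hk]; push_cast; ring
  have k3 : M / η + 4 * M ^ 2 / δ < k := by
    have := mul_le_of_le_one_right (show (0 : ℝ) ≤ k0 + 1 by linarith) (cos_le_one b)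
    linarith
  have r0 : 0 ≤ r := by rw [hr]; linarith
  have r1 : r < 2 * cos b := by rw [hr]; linarith
  have kp : (0 : ℝ) < k := by linarith
  set h := (2 * (j + 1) * cos b - r) / (2 * k * sin b) with hh
  have h0 : 0 < h := div_pos (by linarith [mul_nonneg j0 (show 0 ≤ cos b by linarith)])
    (by positivity)
  have hk1 : 2 * k * h * sin b = 2 * (j + 1) * cos b - r := by rw [hh]; field_simp
  have hM1 : k * h ≤ M := by
    have := mul_le_of_le_one_right (show (0 : ℝ) ≤ j + 1 by linarith) (cos_le_one b)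
    rw [hM, le_div_iff₀ s0]; linarith
  have hη : h < η := by
    have : M < k * η := by rw [← div_lt_iff₀ η0]; linarith
    exact lt_of_mul_lt_mul_left (hM1.trans_lt this) kp.le
  have hq : 2 * k * h ^ 2 ≤ δ / 2 := by
    have a1 : 4 * M ^ 2 ≤ k * δ := by rw [← div_le_iff₀ δ0]; linarith
    have a2 : (k * h) ^ 2 ≤ M ^ 2 := by gcongr
    refine le_of_mul_le_mul_left ?_ kp
    linarith
  have hd : dist (b + h) b < η := by simpa [abs_of_pos h0] using hη
  have t1 := h1 (hd.trans_le ((min_le_left _ _).trans (min_le_left _ _)))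
  have t2 := h2 (hd.trans_le ((min_le_left _ _).trans (min_le_right _ _)))
  have h3 : h ≤ δ / 2 := hη.le.trans (min_le_right _ _)
  have t3 := mul_le_mul_of_nonneg_left (taylor b h0 (by linarith)) (show 0 ≤ 2 * (k : ℝ) by
    positivity)
  rw [← abs_of_pos (show 0 < 2 * (k : ℝ) by positivity), ← abs_mul,
    abs_of_pos (show 0 < 2 * (k : ℝ) by positivity), abs_le] at t3
  rw [Real.dist_eq, abs_lt] at t1
  set β := b + h with hβ
  have β0 : 0 < β := by positivity
  have β1 : β ≤ δ := by linarith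
  have β2 : |β| ≤ ρ := by rw [abs_of_pos β0]; linarith
  have c1 := cs β β0 β1
  set s := t - τ ρ β - 2 * k * cos β with hs
  have e1 : s - σ = -(τ ρ β - τ ρ b) - 2 * k * (cos β - cos b + h * sin b) := by
    rw [hs]; linear_combination hk1 - hr + (-2 * cos b) * kk
  have s1 : σ - δ ≤ s := by linarith [t3.2]
  have s2 : s ≤ σ + δ := by linarith [t3.1]
  have τ0 : 0 < τ ρ β := by unfold τ; linarith [sqrt_nonneg (ρ ^ 2 - sin β ^ 2)]
  have tr := hit (β := β) (s := s) (by linarith) (by linarith) (by linarith) k ρ (U β) (τ ρ β)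
    (hU β β2) τ0 (by
      have := hne β β2
      simp only [U, Complex.real_smul]; field_simp; ring)
  rw [show τ ρ β + (2 * k * cos β + s) = t by rw [hs]; ring] at tr
  refine ⟨_, ⟨_, by rw [norm_mul, hU β β2, e_norm, one_mul], tr⟩, ?_⟩
  have e2 : e (k * (π + 2 * β)) = e (k0 * (π + 2 * b) - r / sin b + δ) * e (j * δ) := by
    rw [← e_add, ← mul_one (e (_ + j * δ)), ← e_int (m * (j + 1)), ← e_add]
    congr 1
    have : 2 * k * h = (j + 1) * (2 * cos b / sin b) - r / sin b := by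
      field_simp; linarith
    push_cast
    linear_combination this + (j + 1) * hm + (π + 2 * b) * kk
  have n1 : ‖U β * e (k * (π + 2 * β)) - e x.arg‖ ≤ 2 * δ := by
    have : U β * e (k * (π + 2 * β)) - e x.arg = (U β - U b) * e (k * (π + 2 * β)) +
      (U b * e (k0 * (π + 2 * b) - r / sin b + δ) * e (j * δ) - e x.arg) := by rw [e2]; ring
    rw [this]
    refine (norm_add_le _ _).trans ?_
    rw [norm_mul, e_norm, ← dist_eq_norm]
    linarith
  have n2 : ‖1 - s * e β‖ ≤ 1 := by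
    rw [← sq_le_one_iff₀ (norm_nonneg _), nsq]
    linarith [mul_nonneg (show 0 ≤ s by linarith) (show 0 ≤ 2 * cos β - s by linarith)]
  have n3 : ‖1 - s * e β - ‖x‖‖ ≤ 4 * δ := by
    have : 1 - s * e β - ‖x‖ = ((1 - s - ‖x‖ : ℝ) : ℂ) + s * (e 0 - e β) := by
      rw [e_zero]; push_cast; ring
    rw [this]
    refine (norm_add_le _ _).trans ?_
    have a1 := e_sub 0 β
    rw [zero_sub, abs_neg, abs_of_pos β0] at a1
    rw [norm_mul, Complex.norm_real, Complex.norm_real, norm_eq_abs, norm_eq_abs,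
      abs_of_nonneg (show 0 ≤ s by linarith)]
    have a2 : |1 - s - ‖x‖| ≤ 2 * δ := abs_le.2 ⟨by linarith, by linarith⟩
    linarith [mul_le_mul (show s ≤ 2 by linarith) (a1.trans β1) (norm_nonneg _) zero_le_two]
  have hx' : x = e x.arg * ‖x‖ := by
    rw [e, mul_comm, mul_comm Complex.I]; exact (Complex.norm_mul_exp_arg_mul_I x).symm
  have : U β * e (k * (π + 2 * β)) * (1 - s * e β) - x =
      (U β * e (k * (π + 2 * β)) - e x.arg) * (1 - s * e β) + e x.arg * (1 - s * e β - ‖x‖) := by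
    linear_combination -hx'
  rw [dist_eq_norm, this]
  refine (norm_add_le _ _).trans_lt ?_
  rw [norm_mul, norm_mul (e _), e_norm]
  linarith [mul_le_mul n1 n2 (norm_nonneg _) (by linarith)]

theorem map {E : Type} [NormedAddCommGroup E] [InnerProductSpace ℝ E] (L : ℂ →ₗᵢ[ℝ] E)
    {P v x : ℂ} {t : ℝ} (h : Traj P v t x) : Traj (L P) (L v) t (L x) := by
  induction h with
  | free P v t h0 h1 =>
    rw [map_add, map_smul]
    exact Traj.free _ _ _ h0 (by rw [← map_smul, ← map_add, L.norm_map]; exact h1)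
  | bounce P v τ t x h0 h1 _ ih =>
    refine Traj.bounce _ _ _ _ _ h0 (by rw [← map_smul, ← map_add, L.norm_map]; exact h1) ?_
    rwa [map_sub, map_smul, ← L.inner_map_map, map_add, map_smul] at ih

theorem result : ∀ n : ℕ, 2 ≤ n → ∀ P : EuclideanSpace ℝ (Fin n), ‖P‖ < 1 → P ≠ 0 →
    ∀ ε : ℝ, 0 < ε → ∃ T : ℝ, ∀ t, T ≤ t → ∀ x : EuclideanSpace ℝ (Fin n), ‖x‖ < 1 →
      ∃ y ∈ front P t, dist y x < ε := by
  intro n hn P hP P0 ε hε
  have ρ0 := norm_pos_iff.2 P0
  obtain ⟨T, hT⟩ := plane ρ0 hP hε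
  refine ⟨T, fun t ht x hx => ?_⟩
  set a := ‖P‖⁻¹ • P with ha
  have a1 : ‖a‖ = 1 := norm_smul_inv_norm P0
  obtain ⟨w, w0, w1, c, hc⟩ : ∃ w, w ≠ 0 ∧ inner ℝ a w = 0 ∧ ∃ c : ℝ,
      x - inner ℝ a x • a = c • w := by
    by_cases h : x - inner ℝ a x • a = 0
    · obtain ⟨k, rfl⟩ : ∃ k, n = k + 1 + 1 := ⟨n - 2, by omega⟩
      have : Fact (Module.finrank ℝ (EuclideanSpace ℝ (Fin (k + 1 + 1))) = k + 1 + 1) := ⟨by simp⟩
      have h1 := Submodule.finrank_orthogonal_span_singleton (𝕜 := ℝ) (n := k + 1) (v := a)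
        (by rw [← norm_pos_iff, a1]; norm_num)
      obtain ⟨w, hw, w0⟩ := Submodule.exists_mem_ne_zero_of_ne_bot (p := (ℝ ∙ a)ᗮ)
        (fun h2 => by rw [h2] at h1; simp at h1)
      exact ⟨w, w0, Submodule.mem_orthogonal_singleton_iff_inner_right.1 hw, 0, by simp [h]⟩
    · exact ⟨_, h, by simp [inner_sub_right, inner_smul_right, a1], 1, by simp⟩
  set b := ‖w‖⁻¹ • w with hb
  have b1 : ‖b‖ = 1 := norm_smul_inv_norm w0
  have ab : inner ℝ a b = 0 := by rw [hb, inner_smul_right, w1, mul_zero]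
  have ba : inner ℝ b a = 0 := by rw [real_inner_comm, ab]
  let L : ℂ →ₗᵢ[ℝ] EuclideanSpace ℝ (Fin n) :=
    (Complex.reLm.smulRight a + Complex.imLm.smulRight b).isometryOfInner fun z z' => by
      simp [inner_add_left, inner_add_right, inner_smul_left, inner_smul_right, a1, b1, ab, ba]
  have hL : ∀ z, L z = z.re • a + z.im • b := fun z => rfl
  have h1 : L (‖P‖ : ℝ) = P := by simp [hL, ha, smul_smul, ρ0.ne']
  have h2 : L ⟨inner ℝ a x, c * ‖w‖⟩ = x := by
    rw [hL, hb, smul_smul _ _ w, mul_assoc, mul_inv_cancel₀ (norm_ne_zero_iff.2 w0), mul_one,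
      ← hc]
    simp
  obtain ⟨y, ⟨v, hv, hy⟩, hd⟩ := hT t ht ⟨inner ℝ a x, c * ‖w‖⟩ (by rwa [← L.norm_map, h2])
  exact ⟨L y, ⟨L v, by rwa [L.norm_map], h1 ▸ map L hy⟩, by rwa [← h2, L.dist_map]⟩

end Pool.Agent.Results.MP_67b65f_an.Ball
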